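import Pool.Agent.Helper26.CL.St

/-! Project CM (MP_65faa7), module Har: mean cluster sizes of neighbouring points. -/

set_option autoImplicit false

open scoped BigOperators
open Pool.LE Pool.NL

namespace Pool.CN

theorem hHar (hEdge : StEdge) (hBasic : StBasic) (hClu : StClu) (hHh : StHh) (hBn : StBn)
    (hBox : StBox) : StHar := by
  intro d n p h0 h1 b hb u hu hub
  obtain ⟨hFG, -⟩ := hBn d n
  set E := ES (Bn d n) with hE
  have hmem : s(u, b) ∈ E := by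
    obtain ⟨-, -, -, h4, -, -, -, h8, -⟩ := hBox d
    exact (h8 (Bn d n) u b).2 ⟨hu, hb, (h4 b u).1 hub⟩
  have hne : u ≠ b := by
    intro h
    exact hFG.noloop _ hmem (by rw [h]; exact Sym2.mk_isDiag_iff.2 rfl)
  obtain ⟨hMono, hConst, -⟩ := hBasic (Zd d) E p h0 h1
  obtain ⟨hMono', hConst', -⟩ := hBasic (Zd d) (E.erase s(u, b)) p h0 h1
  obtain ⟨hhx, -⟩ := hHh (Zd d) (Bn d n) E (2 * d) p hFG h0 h1
  have hcon : ∀ ω : Finset (Sym2 (Zd d)), con (insert s(u, b) ω) u b := by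
    intro ω
    refine SimpleGraph.Adj.reachable ?_
    rw [gr, SimpleGraph.fromEdgeSet_adj]
    exact ⟨by simp, hne⟩
  have hsub : ∀ ω : Finset (Sym2 (Zd d)), ω ⊆ E → insert s(u, b) ω ⊆ E := by
    intro ω hω
    exact Finset.insert_subset hmem hω
  obtain ⟨e1, -, -, -⟩ := hEdge (Zd d) E p s(u, b) (fun ω => (Xc (Bn d n) ω u : ℝ)) hmem
  obtain ⟨-, -, -, e4⟩ := hEdge (Zd d) E p s(u, b) (fun ω => (Xc (Bn d n) ω b : ℝ)) hmem
  have hnn : 0 ≤ ex (E.erase s(u, b)) p (fun ω => (Xc (Bn d n) ω u : ℝ)) := by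
    have := hMono' (fun _ => 0) (fun ω => (Xc (Bn d n) ω u : ℝ)) (fun ω _ => Nat.cast_nonneg _)
    rwa [hConst' 0] at this
  have hle : hh (Bn d n) E p b ≤
      ex (E.erase s(u, b)) p (fun ω => (Xc (Bn d n) (insert s(u, b) ω) u : ℝ)) := by
    rw [hhx b]
    have h2 : ex E p (fun ω => (Xc (Bn d n) ω b : ℝ)) ≤
        ex E p (fun ω => (Xc (Bn d n) (insert s(u, b) ω) b : ℝ)) := by
      refine hMono _ _ fun ω hω => ?_
      obtain ⟨-, -, -, -, h5, -⟩ := hClu (Zd d) (Bn d n) E ω (2 * d) hFG hω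
      exact_mod_cast (h5 (insert s(u, b) ω) (Finset.subset_insert _ _) b).2
    refine h2.trans ?_
    rw [e4]
    refine hMono' _ _ fun ω hω => ?_
    have hω' : insert s(u, b) ω ⊆ E := hsub ω (hω.trans (Finset.erase_subset _ _))
    obtain ⟨-, h6, -⟩ := hClu (Zd d) (Bn d n) E (insert s(u, b) ω) (2 * d) hFG hω'
    have h7 := (h6 u b (hcon ω)).2
    rw [h7]
  rw [hhx u, e1]
  nlinarith [mul_le_mul_of_nonneg_left hle h0, mul_nonneg (sub_nonneg.2 h1) hnn]

end Pool.CN
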